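import Pool.Agent.H37.CNZ.Stmts

/-!
# Board `cnz`, row CUN: the Artin-Schreier extension of a cover by a central element is a cover
-/

set_option autoImplicit false

namespace Pool.CND

open Finset

/-- a solution of `x ^ n - x = r` with `r` integral is integral at the place -/
theorem cun_int {k L : Type} [Field k] [Field L] [Algebra k L] (P : Place k L) {x r : L}
    {n : ℕ} (hn : 2 ≤ n) (hr : P.Ge r 0) (h : x ^ n - x = r) : P.Ge x 0 := by
  by_contra hx
  obtain ⟨hx0, hxlt⟩ := P.not_ge.1 hx
  have h1 : P.ord (x ^ n) = n * P.ord x := P.ord_pow hx0 n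
  have hn' : (2 : ℤ) ≤ n := by exact_mod_cast hn
  have h2 : (n : ℤ) * P.ord x + 1 ≤ P.ord x := by nlinarith
  have hlt : P.ord (x ^ n) < 0 := by
    rw [h1]
    nlinarith
  have h3 : P.Ge (-x) (P.ord (x ^ n) + 1) :=
    P.ge_mono (P.ge_neg (P.ge_ord x)) (by rw [h1]; exact h2)
  obtain ⟨h4, h5⟩ := P.ord_add_of_lt (pow_ne_zero n hx0) h3
  rw [← h, sub_eq_add_neg] at hr
  have h6 := (P.ge_iff h4 0).1 hr
  omega

/-- an automorphism which fixes the place and translates an integral element by a constant -/
theorem cun_const {k L : Type} [Field k] [Field L] [Algebra k L] (P : Place k L)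
    {g : L ≃ₐ[k] L} (hg : Fixes P g) {x : L} (hx : P.Ge x 0) {w : k}
    (h : g x = x + algebraMap k L w) : w = 0 := by
  by_contra hw
  obtain ⟨c, hc⟩ : ∃ c : k, P.Ge (x - algebraMap k L c) 1 := by
    by_cases hx0 : x = 0
    · exact ⟨0, Or.inl (by rw [hx0, map_zero, sub_zero])⟩
    · obtain ⟨c, hc⟩ := P.residue x hx0 ((P.ge_iff hx0 0).1 hx)
      refine ⟨c, ?_⟩
      rcases hc with hc | hc
      · exact Or.inl (by rw [← hc, sub_self])
      · exact Or.inr (by omega)
  have h1 : P.Ge (g (x - algebraMap k L c)) 1 := hg.ge hc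
  have h2 : algebraMap k L w = g (x - algebraMap k L c) - (x - algebraMap k L c) := by
    rw [map_sub, h, AlgEquiv.commutes]
    ring
  have h3 : P.Ge (algebraMap k L w) 1 := by
    rw [h2]
    exact P.ge_sub h1 hc
  have h4 : algebraMap k L w ≠ 0 := by
    rw [Ne, map_eq_zero]
    exact hw
  have h5 := (P.ge_iff h4 1).1 h3
  rw [P.ord_const w hw] at h5
  omega

theorem cun_thm (hRSP : S_RSP) : S_CUN := by
  intro p k L L' G _ _ _ _ _ _ _ z _ ρ b r t j Y ρ' hp hchar hz hcov hreg hcoc hbz hY heq hρY hinj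
    hfix
  have htr : Transcendental k (j t) := by
    intro h
    exact hcov.trans ((isAlgebraic_algHom_iff j j.injective).1 h)
  have ht0 : t ≠ 0 := by
    rintro rfl
    exact hcov.trans isAlgebraic_zero
  have hb : ∀ n : ℕ, b (z ^ n) = (n : L) := by
    intro n
    induction n with
    | zero =>
      have h1 := hcoc 1 1
      rw [mul_one] at h1
      have h2 : ((1 : G) : G ⧸ Subgroup.zpowers z) = 1 := rfl
      rw [h2, map_one, AlgEquiv.one_apply] at h1
      rw [pow_zero, Nat.cast_zero]
      have h3 : b 1 + 0 = b 1 + b 1 := by rw [add_zero]; exact h1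
      exact (add_left_cancel h3).symm
    | succ n ih =>
      have h1 := hcoc (z ^ n) z
      have h2 : ((z ^ n : G) : G ⧸ Subgroup.zpowers z) = 1 :=
        (QuotientGroup.eq_one_iff _).2 (Subgroup.npow_mem_zpowers z n)
      rw [h2, map_one, AlgEquiv.one_apply, hbz, ih] at h1
      rw [pow_succ, h1, Nat.cast_succ]
  refine ⟨hinj, htr, ?_, ?_⟩
  · intro x
    have hadj : (IntermediateField.adjoin k {t}).map j = IntermediateField.adjoin k {j t} := by
      rw [IntermediateField.adjoin_map, Set.image_singleton]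
    rw [← hadj, IntermediateField.mem_map]
    constructor
    · intro h
      obtain ⟨y, hy⟩ := hfix x (h z)
      refine ⟨y, ?_, hy.symm⟩
      rw [← hcov.fixed]
      intro g
      obtain ⟨g, rfl⟩ := QuotientGroup.mk_surjective g
      apply j.injective
      change j (ρ (g : G ⧸ Subgroup.zpowers z) y) = j y
      rw [← heq, ← hy]
      exact h g
    · rintro ⟨y, hy, rfl⟩ g
      rw [heq, (hcov.fixed y).2 hy]
  · intro P' hP' g hg
    obtain ⟨e, P, he, hP⟩ := hRSP k L L' j P' t hcov.trans
    have he0 : (e : ℤ) ≠ 0 := by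
      have : (1 : ℤ) ≤ e := by exact_mod_cast he
      omega
    have hePos : (0 : ℤ) < e := by omega
    have hPt : 0 ≤ P.ord t := by
      have h1 := hP t ht0
      by_contra h2
      have h3 : (e : ℤ) * P.ord t < 0 := mul_neg_of_pos_of_neg hePos (by omega)
      omega
    have hfixP : Fixes P (ρ (g : G ⧸ Subgroup.zpowers z)) := by
      intro x hx
      have h1 : ρ (g : G ⧸ Subgroup.zpowers z) x ≠ 0 := by
        rw [Ne, map_eq_zero]
        exact hx
      have h2 := hP _ h1
      rw [← heq, hg (j x) (by rw [Ne, map_eq_zero]; exact hx), ← hP x hx] at h2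
      exact mul_left_cancel₀ he0 h2
    have hg1 := hcov.unram P hPt _ hfixP
    rw [QuotientGroup.eq_one_iff] at hg1
    obtain ⟨n, rfl⟩ := (Submonoid.mem_powers_iff g z).1 ((mem_powers_iff_mem_zpowers).2 hg1)
    have hr : P'.Ge (j r) 0 := by
      by_cases hr0 : r = 0
      · exact Or.inl (by rw [hr0, map_zero])
      · have hr1 : 0 ≤ P.ord r := by
          rcases hreg P hPt with h | h
          · exact absurd h hr0
          · exact h
        exact Or.inr (by rw [← hP r hr0]; positivity)
    have hYint : P'.Ge Y 0 := cun_int P' hp.two_le hr hY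
    have h1 : ρ' (z ^ n) Y = Y + algebraMap k L' (n : k) := by
      rw [hρY, hb, map_natCast, map_natCast]
    have h2 := cun_const P' hg hYint h1
    have h3 : p ∣ n := (CharP.cast_eq_zero_iff k p n).1 h2
    rw [← hz] at h3
    exact orderOf_dvd_iff_pow_eq_one.1 h3

end Pool.CND
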