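import Pool.Agent.H37.CNZ.Stmts

/-!
# Board `cnz`, row CES: central embedding problems for covers
-/

set_option autoImplicit false

namespace Pool.CND

open Finset

theorem ces_thm (hCCO : S_CCO) (hCIR : S_CIR) (hCGA : S_CGA) (hCUN : S_CUN) : S_CES := by
  intro p k L G _ _ _ _ _ _ z _ ρ t hp hchar hz hcen hcov
  obtain ⟨b, r, hreg, hcoc, hbz, hr⟩ := hCCO p k L G z ρ t hp hchar hz hcen hcov
  obtain ⟨a, ha⟩ := hCIR p k L (G ⧸ Subgroup.zpowers z) ρ t r hp hchar hcov
  have ht : ∀ g : G ⧸ Subgroup.zpowers z, ρ g t = t :=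
    (hcov.fixed t).2 (IntermediateField.mem_adjoin_simple_self k t)
  have hr' : ∀ g : G, ρ (g : G ⧸ Subgroup.zpowers z) (r + t ^ a) - (r + t ^ a) = b g ^ p - b g := by
    intro g
    rw [map_add, map_pow, ht, ← hr g]
    ring
  have hreg' : Reg k t (r + t ^ a) := by
    intro P hP
    have h1 : P.Ge r 0 := by
      rcases hreg P hP with h | h
      · exact Or.inl h
      · exact Or.inr h
    have h2 : P.Ge (t ^ a) 0 := by
      by_cases h0 : t ^ a = 0
      · exact Or.inl h0
      · have h3 : t ≠ 0 := by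
          intro h
          rw [h] at h0
          exact hcov.trans (h ▸ isAlgebraic_zero)
        exact Or.inr (by rw [P.ord_pow h3]; positivity)
    exact P.ge_add h1 h2
  obtain ⟨L', _, _, j, Y, ρ', hY, heq, hρY, hinj, hfix⟩ :=
    hCGA p k L G z ρ b (r + t ^ a) hp hchar hz hcov.inj hcoc hbz hr' ha
  exact ⟨L', inferInstance, inferInstance, j, ρ', hCUN p k L L' G z ρ b (r + t ^ a) t j Y ρ' hp
    hchar hz hcov hreg' hcoc hbz hY heq hρY hinj hfix, heq⟩

end Pool.CND
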